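import Pool.Agent.U481.EV.Stm

set_option autoImplicit false

/-! Package DEN of Project EV: passage to the limit in the Biot-Savart bound. -/

namespace Pool.Agent.U59.EV

open MeasureTheory Set Filter Topology
open scoped ENNReal NNReal ContDiff
open H772R2.NS Pool.Agent.U481.EV

/-- the kernel -/
noncomputable def K (x : E3) : ℝ≥0∞ := (‖x‖ₑ ^ 2)⁻¹

theorem K_meas : Measurable K := (measurable_enorm.pow_const 2).inv

/-- near part -/
noncomputable def K1 : E3 → ℝ≥0∞ := (Metric.ball (0 : E3) 1).indicator K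

/-- far part -/
noncomputable def K2 : E3 → ℝ≥0∞ := (Metric.ball (0 : E3) 1)ᶜ.indicator K

theorem K1_meas : Measurable K1 := K_meas.indicator Metric.isOpen_ball.measurableSet

theorem K2_meas : Measurable K2 := K_meas.indicator Metric.isOpen_ball.measurableSet.compl

theorem K_eq (x : E3) : K x = K1 x + K2 x := by
  have := Set.indicator_self_add_compl (Metric.ball (0 : E3) 1) K
  exact (congrFun this x).symm

theorem K1_fin : ∫⁻ x, K1 x ≠ ⊤ := by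
  have h : Integrable (fun x : E3 => (Set.Iio (1 : ℝ)).indicator (fun y : ℝ => y ^ (-2 : ℤ)) ‖x‖) := by
    rw [integrable_fun_norm_addHaar volume (f := (Set.Iio (1 : ℝ)).indicator
      (fun y : ℝ => y ^ (-2 : ℤ)))]
    have h1 : Integrable ((Set.Iio (1 : ℝ)).indicator (fun _ : ℝ => (1 : ℝ)))
        (volume.restrict (Set.Ioi 0)) := by
      rw [integrable_indicator_iff measurableSet_Iio, IntegrableOn,
        Measure.restrict_restrict measurableSet_Iio]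
      have : Set.Iio (1 : ℝ) ∩ Set.Ioi 0 = Set.Ioo 0 1 := by
        ext y
        simp only [mem_inter_iff, mem_Iio, mem_Ioi, mem_Ioo]
        exact and_comm
      rw [this]
      exact integrable_const _
    refine h1.congr ?_
    filter_upwards [ae_restrict_mem measurableSet_Ioi] with y hy
    have hy' : (0 : ℝ) < y := hy
    by_cases hy1 : y < 1
    · rw [Set.indicator_of_mem (show y ∈ Set.Iio (1 : ℝ) from hy1),
        Set.indicator_of_mem (show y ∈ Set.Iio (1 : ℝ) from hy1)]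
      simp only [finrank_euclideanSpace, Fintype.card_fin, smul_eq_mul]
      rw [zpow_neg]
      norm_num
      field_simp
    · rw [Set.indicator_of_notMem (show y ∉ Set.Iio (1 : ℝ) from hy1),
        Set.indicator_of_notMem (show y ∉ Set.Iio (1 : ℝ) from hy1), smul_zero]
  have h2 := h.2
  rw [hasFiniteIntegral_iff_enorm] at h2
  refine ne_of_lt (lt_of_le_of_lt (lintegral_mono_ae ?_) h2)
  have h0 : ∀ᵐ x : E3, x ≠ 0 := by
    rw [ae_iff]
    simp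
  filter_upwards [h0] with x hx
  rw [K1]
  by_cases hx1 : x ∈ Metric.ball (0 : E3) 1
  · rw [Set.indicator_of_mem hx1]
    have hx2 : ‖x‖ < 1 := by simpa using hx1
    rw [Set.indicator_of_mem (show ‖x‖ ∈ Set.Iio (1 : ℝ) from hx2), K]
    have hx3 : 0 < ‖x‖ := norm_pos_iff.2 hx
    rw [← ofReal_norm, ← ofReal_norm, Real.norm_of_nonneg (by positivity),
      ← ENNReal.ofReal_pow (norm_nonneg _), ← ENNReal.ofReal_inv_of_pos (by positivity)]
    apply le_of_eq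
    congr 1
  · rw [Set.indicator_of_notMem hx1]
    exact bot_le

theorem K2_fin : ∫⁻ x, K2 x ^ 2 ≠ ⊤ := by
  have h := finite_integral_one_add_norm (E := E3) (μ := volume) (r := 4) (by
    rw [finrank_euclideanSpace, Fintype.card_fin]
    norm_num)
  have h1 : ∫⁻ x : E3, K2 x ^ 2 ≤
      ∫⁻ x : E3, 16 * ENNReal.ofReal ((1 + ‖x‖) ^ (-(4 : ℝ))) := by
    refine lintegral_mono fun x => ?_
    rw [K2]
    by_cases hx1 : x ∈ (Metric.ball (0 : E3) 1)ᶜ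
    · rw [Set.indicator_of_mem hx1]
      have hx2 : 1 ≤ ‖x‖ := by simpa using hx1
      have hx3 : 0 < ‖x‖ := by linarith
      rw [K, ← ofReal_norm, ← ENNReal.ofReal_pow (norm_nonneg _),
        ← ENNReal.ofReal_inv_of_pos (by positivity), ← ENNReal.ofReal_pow (by positivity),
        show (16 : ℝ≥0∞) = ENNReal.ofReal 16 by norm_num, ← ENNReal.ofReal_mul (by norm_num)]
      apply ENNReal.ofReal_le_ofReal
      have h4 : (1 + ‖x‖) ^ (-(4 : ℝ)) = ((1 + ‖x‖) ^ 4)⁻¹ := by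
        rw [Real.rpow_neg (by positivity)]
        congr 1
        exact_mod_cast Real.rpow_natCast (1 + ‖x‖) 4
      rw [h4, ← div_eq_mul_inv, le_div_iff₀ (by positivity)]
      have h5 : (1 + ‖x‖) ^ 4 ≤ (2 * ‖x‖) ^ 4 :=
        pow_le_pow_left₀ (by positivity) (by linarith) 4
      have h6 : ((‖x‖ ^ 2)⁻¹) ^ 2 * (2 * ‖x‖) ^ 4 = 16 := by
        field_simp
        ring
      calc ((‖x‖ ^ 2)⁻¹) ^ 2 * (1 + ‖x‖) ^ 4 ≤ ((‖x‖ ^ 2)⁻¹) ^ 2 * (2 * ‖x‖) ^ 4 :=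
            mul_le_mul_of_nonneg_left h5 (by positivity)
        _ = 16 := h6
    · rw [Set.indicator_of_notMem hx1]
      simp
  refine ne_of_lt (lt_of_le_of_lt h1 ?_)
  rw [lintegral_const_mul' _ _ (by norm_num)]
  exact ENNReal.mul_lt_top (by norm_num) h

theorem young (x y t : ℝ≥0∞) (h0 : t ≠ 0) (ht : t ≠ ⊤) : x * y ≤ t * x ^ 2 + t⁻¹ * y ^ 2 := by
  rcases le_total y (t * x) with h | h
  · calc x * y ≤ x * (t * x) := by gcongr
      _ = t * x ^ 2 := by ring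
      _ ≤ _ := le_self_add
  · have h2 : x ≤ t⁻¹ * y := by
      rw [← ENNReal.div_eq_inv_mul, ENNReal.le_div_iff_mul_le (Or.inl h0) (Or.inl ht), mul_comm]
      exact h
    calc x * y ≤ t⁻¹ * y * y := by gcongr
      _ = t⁻¹ * y ^ 2 := by ring
      _ ≤ _ := le_add_self

theorem rot_sub (m m' : M3) : rot m - rot m' = rot (m - m') := by
  ext i
  fin_cases i <;> simp [rot] <;> ring

theorem rot_le (m : M3) : ‖rot m‖ ≤ 4 * ‖m‖ := by
  have hc : ∀ p, |m p| ≤ ‖m‖ := fun p => PiLp.norm_apply_le m p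
  have h1 : ‖rot m‖ ^ 2 ≤ (4 * ‖m‖) ^ 2 := by
    rw [EuclideanSpace.real_norm_sq_eq, Fin.sum_univ_three]
    simp only [rot]
    have a1 := abs_le.1 (hc (2, 1))
    have a2 := abs_le.1 (hc (1, 2))
    have a3 := abs_le.1 (hc (0, 2))
    have a4 := abs_le.1 (hc (2, 0))
    have a5 := abs_le.1 (hc (1, 0))
    have a6 := abs_le.1 (hc (0, 1))
    have b : ∀ x y N : ℝ, -N ≤ x → x ≤ N → -N ≤ y → y ≤ N → (x - y) ^ 2 ≤ 4 * N ^ 2 := by
      intro x y N h1 h2 h3 h4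
      have : |x - y| ≤ 2 * N := abs_le.2 ⟨by linarith, by linarith⟩
      have h5 := pow_le_pow_left₀ (abs_nonneg _) this 2
      rw [sq_abs] at h5
      nlinarith
    have b1 := b _ _ _ a1.1 a1.2 a2.1 a2.2
    have b2 := b _ _ _ a3.1 a3.2 a4.1 a4.2
    have b3 := b _ _ _ a5.1 a5.2 a6.1 a6.2
    simp only [Matrix.cons_val_zero, Matrix.cons_val_one, Matrix.cons_val]
    nlinarith [sq_nonneg ‖m‖]
  exact (pow_le_pow_iff_left₀ (norm_nonneg _) (by positivity) (by norm_num)).1 h1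

theorem rot_enorm (m m' : M3) : ‖rot m‖ₑ ≤ ‖rot m'‖ₑ + 4 * ‖m - m'‖ₑ := by
  have h1 : ‖rot m‖ ≤ ‖rot m'‖ + 4 * ‖m - m'‖ := by
    have h2 : rot m = rot m' + rot (m - m') := by rw [← rot_sub]; abel
    calc ‖rot m‖ = ‖rot m' + rot (m - m')‖ := by rw [h2]
      _ ≤ ‖rot m'‖ + ‖rot (m - m')‖ := norm_add_le _ _
      _ ≤ _ := by linarith [rot_le (m - m')]
  rw [← ofReal_norm, ← ofReal_norm, ← ofReal_norm, show (4 : ℝ≥0∞) = ENNReal.ofReal 4 by norm_num,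
    ← ENNReal.ofReal_mul (by norm_num), ← ENNReal.ofReal_add (norm_nonneg _) (by positivity)]
  exact ENNReal.ofReal_le_ofReal h1

theorem rot_zero : rot 0 = 0 := by
  have := rot_sub 0 0
  rw [sub_self, sub_self] at this
  exact this.symm

theorem lint_sq {F : Type*} [NormedAddCommGroup F] {μ : Measure E3} (f : Lp F 2 μ) :
    ∫⁻ x, ‖f x‖ₑ ^ 2 ∂μ = ‖f‖ₑ ^ 2 := by
  have h := eLpNorm_nnreal_pow_eq_lintegral (f := f) (μ := μ) (p := 2) (by norm_num)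
  rw [Lp.enorm_def]
  have e1 : ((2 : ℝ≥0) : ℝ) = 2 := by norm_num
  simp only [e1, ENNReal.rpow_two] at h
  exact h.symm

/-- series in L1 -/
theorem ae_zero {μ : Measure E3} (f : ℕ → E3 → ℝ≥0∞) (hf : ∀ n, Measurable (f n)) (κ : ℝ≥0∞)
    (hκ : κ ≠ ⊤) (h : ∀ n, ∫⁻ x, f n x ∂μ ≤ κ * 2⁻¹ ^ n) :
    ∀ᵐ x ∂μ, Tendsto (fun n => f n x) atTop (𝓝 0) := by
  have h1 : ∫⁻ x, ∑' n, f n x ∂μ ≠ ⊤ := by
    rw [lintegral_tsum fun n => (hf n).aemeasurable]
    refine ne_top_of_le_ne_top ?_ (ENNReal.tsum_le_tsum h)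
    rw [ENNReal.tsum_mul_left, ENNReal.tsum_geometric]
    refine ENNReal.mul_ne_top hκ ?_
    rw [ENNReal.one_sub_inv_two, inv_inv]
    norm_num
  filter_upwards [ae_lt_top (Measurable.tsum hf) h1] with x hx
  exact ENNReal.tendsto_atTop_zero_of_tsum_ne_top hx.ne

theorem conv (Ω : Set E3) (q : L2M Ω) (t : ℝ≥0∞) (h0 : t ≠ 0) (ht : t ≠ ⊤) (a : E3) :
    ∫⁻ y in Ω, (4 * ‖q y‖ₑ) * K (a - y) ≤
      t * (∫⁻ y in Ω, (4 * ‖q y‖ₑ) ^ 2 * K1 (a - y)) + t⁻¹ * (∫⁻ y, K1 y) +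
        (t * (16 * ‖q‖ₑ ^ 2) + t⁻¹ * ∫⁻ y, K2 y ^ 2) := by
  have hq : Measurable fun y => 4 * ‖q y‖ₑ :=
    measurable_const.mul (Lp.stronglyMeasurable q).measurable.enorm
  have hk1 : Measurable fun y => K1 (a - y) := K1_meas.comp (measurable_const.sub measurable_id)
  have hk2 : Measurable fun y => K2 (a - y) := K2_meas.comp (measurable_const.sub measurable_id)
  have e1 : ∀ y, (4 * ‖q y‖ₑ) * K (a - y) ≤
      (t * ((4 * ‖q y‖ₑ) ^ 2 * K1 (a - y)) + t⁻¹ * K1 (a - y)) +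
        (t * (4 * ‖q y‖ₑ) ^ 2 + t⁻¹ * K2 (a - y) ^ 2) := by
    intro y
    rw [K_eq, mul_add]
    refine add_le_add ?_ (young _ _ t h0 ht)
    have := young (4 * ‖q y‖ₑ) 1 t h0 ht
    calc (4 * ‖q y‖ₑ) * K1 (a - y) = (4 * ‖q y‖ₑ) * 1 * K1 (a - y) := by rw [mul_one]
      _ ≤ (t * (4 * ‖q y‖ₑ) ^ 2 + t⁻¹ * 1 ^ 2) * K1 (a - y) := by gcongr
      _ = _ := by ring
  refine (lintegral_mono e1).trans ?_
  have m4 : Measurable fun y => (4 * ‖q y‖ₑ) ^ 2 := hq.pow_const 2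
  have m3 : Measurable fun y => (4 * ‖q y‖ₑ) ^ 2 * K1 (a - y) := m4.mul hk1
  have m1 : Measurable fun y => t * ((4 * ‖q y‖ₑ) ^ 2 * K1 (a - y)) := m3.const_mul t
  have m0 : Measurable fun y => t⁻¹ * K1 (a - y) := hk1.const_mul _
  have m2 : Measurable fun y => t * ((4 * ‖q y‖ₑ) ^ 2 * K1 (a - y)) + t⁻¹ * K1 (a - y) := m1.add m0
  have m5 : Measurable fun y => t * (4 * ‖q y‖ₑ) ^ 2 := m4.const_mul t
  have m6 : Measurable fun y => K2 (a - y) ^ 2 := hk2.pow_const 2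
  rw [lintegral_add_left m2, lintegral_add_left m1, lintegral_const_mul _ m3,
    lintegral_const_mul _ hk1, lintegral_add_left m5,
    lintegral_const_mul _ m4, lintegral_const_mul _ m6]
  have e2 : ∫⁻ y in Ω, K1 (a - y) ≤ ∫⁻ y, K1 y := by
    refine (setLIntegral_le_lintegral _ _).trans (le_of_eq ?_)
    exact lintegral_sub_left_eq_self K1 a
  have e3 : ∫⁻ y in Ω, K2 (a - y) ^ 2 ≤ ∫⁻ y, K2 y ^ 2 := by
    refine (setLIntegral_le_lintegral _ _).trans (le_of_eq ?_)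
    exact lintegral_sub_left_eq_self (fun y => K2 y ^ 2) a
  have e4 : ∫⁻ y in Ω, (4 * ‖q y‖ₑ) ^ 2 = 16 * ‖q‖ₑ ^ 2 := by
    rw [← lint_sq q, ← lintegral_const_mul' _ _ (by norm_num)]
    refine lintegral_congr fun y => ?_
    rw [mul_pow]
    norm_num
  rw [e4]
  gcongr

theorem swap (Ω : Set E3) (q : L2M Ω) :
    ∫⁻ a, ∫⁻ y in Ω, (4 * ‖q y‖ₑ) ^ 2 * K1 (a - y) = 16 * ‖q‖ₑ ^ 2 * ∫⁻ x, K1 x := by
  have hq : Measurable fun y => 4 * ‖q y‖ₑ :=
    measurable_const.mul (Lp.stronglyMeasurable q).measurable.enorm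
  rw [lintegral_lintegral_swap]
  · have e1 : ∀ y, ∫⁻ a, (4 * ‖q y‖ₑ) ^ 2 * K1 (a - y) = (4 * ‖q y‖ₑ) ^ 2 * ∫⁻ x, K1 x := by
      intro y
      have m : Measurable fun a => K1 (a - y) := K1_meas.comp (measurable_id.sub measurable_const)
      rw [lintegral_const_mul _ m, lintegral_sub_right_eq_self K1 y]
    simp_rw [e1]
    rw [lintegral_mul_const _ (hq.pow_const 2)]
    congr 1
    rw [← lint_sq q, ← lintegral_const_mul' _ _ (by norm_num)]
    refine lintegral_congr fun y => ?_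
    rw [mul_pow]
    norm_num
  · refine Measurable.aemeasurable ?_
    exact ((hq.comp measurable_snd).pow_const 2).mul
      (K1_meas.comp (measurable_fst.sub measurable_snd))

theorem outside (Ω : Set E3) (hΩ : MeasurableSet Ω) (φ : E3 → E3) (h : IsTest Ω φ) (a : E3) :
    ∫⁻ y, ‖rot (jac φ y)‖ₑ * K (a - y) = ∫⁻ y in Ω, ‖rot (jac φ y)‖ₑ * K (a - y) := by
  rw [← lintegral_indicator hΩ]
  refine lintegral_congr fun y => ?_
  by_cases hy : y ∈ Ω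
  · rw [Set.indicator_of_mem hy]
  · rw [Set.indicator_of_notMem hy]
    have h1 : fderiv ℝ φ y = 0 := by
      by_contra h2
      exact hy (h.supp (support_fderiv_subset ℝ h2))
    have h3 : jac φ y = 0 := by
      ext p
      simp [jac, h1]
    rw [h3, rot_zero, enorm_zero, zero_mul]

theorem num (n : ℕ) (x : ℝ≥0∞) (hx : x ≤ 4⁻¹ * 2⁻¹ ^ n) : 2 ^ n * (16 * x ^ 2) ≤ 2⁻¹ ^ n := by
  have h1 : (2 : ℝ≥0∞) ^ n * 2⁻¹ ^ n = 1 := by
    rw [← ENNReal.inv_pow]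
    exact ENNReal.mul_inv_cancel (pow_ne_zero _ (by norm_num)) (ENNReal.pow_ne_top (by norm_num))
  have h2 : (16 : ℝ≥0∞) * 4⁻¹ ^ 2 = 1 := by
    rw [← ENNReal.inv_pow]
    norm_num
    exact ENNReal.mul_inv_cancel (by norm_num) (by norm_num)
  calc (2 : ℝ≥0∞) ^ n * (16 * x ^ 2) ≤ 2 ^ n * (16 * (4⁻¹ * 2⁻¹ ^ n) ^ 2) := by gcongr
    _ = (2 ^ n * 2⁻¹ ^ n) * (16 * 4⁻¹ ^ 2) * 2⁻¹ ^ n := by ring
    _ = _ := by rw [h1, h2, one_mul, one_mul]

theorem pick (Ω : Set E3) (v : L2V Ω) (z : L2M Ω) (h : (v, z) ∈ H1graph Ω) (n : ℕ) :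
    ∃ (φ : E3 → E3) (v' : L2V Ω) (z' : L2M Ω), IsTest Ω φ ∧ v' =ᵐ[volume.restrict Ω] φ ∧
      z' =ᵐ[volume.restrict Ω] jac φ ∧ ‖v' - v‖ₑ ≤ 4⁻¹ * 2⁻¹ ^ n ∧ ‖z' - z‖ₑ ≤ 4⁻¹ * 2⁻¹ ^ n := by
  obtain ⟨p, ⟨φ, h1, h2, h3⟩, h4⟩ :=
    Metric.mem_closure_iff.1 h ((1 / 4) * (1 / 2) ^ n) (by positivity)
  have e : ENNReal.ofReal ((1 / 4) * (1 / 2) ^ n) = 4⁻¹ * 2⁻¹ ^ n := by
    rw [ENNReal.ofReal_mul (by norm_num), ENNReal.ofReal_pow (by norm_num), one_div, one_div,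
      ENNReal.ofReal_inv_of_pos (by norm_num), ENNReal.ofReal_inv_of_pos (by norm_num)]
    norm_num
  rw [dist_comm, Prod.dist_eq] at h4
  have h5 := (le_max_left _ _).trans h4.le
  have h6 := (le_max_right _ _).trans h4.le
  refine ⟨φ, p.1, p.2, h1, h2, h3, ?_, ?_⟩
  · rw [← e, ← ofReal_norm]
    apply ENNReal.ofReal_le_ofReal
    rw [← dist_eq_norm]
    exact h5
  · rw [← e, ← ofReal_norm]
    apply ENNReal.ofReal_le_ofReal
    rw [← dist_eq_norm]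
    exact h6

theorem main : S_bs → S_den := by
  rintro ⟨C, hC⟩
  refine ⟨C, fun Ω hΩ v z hvz => ?_⟩
  choose φ v' z' hφ hv hz nv nz using pick Ω v z hvz
  have r0 : ∀ n : ℕ, (2 : ℝ≥0∞) ^ n ≠ 0 := fun n => pow_ne_zero _ (by norm_num)
  have r1 : ∀ n : ℕ, (2 : ℝ≥0∞) ^ n ≠ ⊤ := fun n => ENNReal.pow_ne_top (by norm_num)
  have gz : ∀ᵐ a : E3, Tendsto (fun n : ℕ => (2 : ℝ≥0∞) ^ n *
      ∫⁻ y in Ω, (4 * ‖(z' n - z) y‖ₑ) ^ 2 * K1 (a - y)) atTop (𝓝 0) := by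
    refine ae_zero _ (fun n => ?_) (∫⁻ x, K1 x) K1_fin (fun n => ?_)
    · refine Measurable.const_mul ?_ _
      have hq : Measurable fun y => 4 * ‖(z' n - z) y‖ₑ :=
        measurable_const.mul (Lp.stronglyMeasurable (z' n - z)).measurable.enorm
      have : Measurable fun p : E3 × E3 => (4 * ‖(z' n - z) p.2‖ₑ) ^ 2 * K1 (p.1 - p.2) :=
        ((hq.comp measurable_snd).pow_const 2).mul
          (K1_meas.comp (measurable_fst.sub measurable_snd))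
      exact this.lintegral_prod_right'
    · rw [lintegral_const_mul' _ _ (r1 n), swap]
      calc (2 : ℝ≥0∞) ^ n * (16 * ‖z' n - z‖ₑ ^ 2 * ∫⁻ x, K1 x)
          = (∫⁻ x, K1 x) * (2 ^ n * (16 * ‖z' n - z‖ₑ ^ 2)) := by ring
        _ ≤ _ := by
          gcongr
          exact num n _ (nz n)
  have wz : ∀ᵐ a ∂(volume.restrict Ω), Tendsto (fun n : ℕ => (2 : ℝ≥0∞) ^ n *
      ‖(v' n - v) a‖ₑ ^ 2) atTop (𝓝 0) := by
    refine ae_zero _ (fun n => ?_) 1 (by norm_num) (fun n => ?_)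
    · exact ((Lp.stronglyMeasurable (v' n - v)).measurable.enorm.pow_const 2).const_mul _
    · rw [lintegral_const_mul' _ _ (r1 n), lint_sq, one_mul]
      refine le_trans ?_ (num n _ (nv n))
      gcongr
      exact le_mul_of_one_le_left' (by norm_num)
  have hv2 := ae_all_iff.2 hv
  have hv3 := ae_all_iff.2 fun n => Lp.coeFn_sub (v' n) v
  filter_upwards [ae_restrict_of_ae gz, wz, hv2, hv3] with a g1 g2 g3 g4
  have main : ∀ n : ℕ, ‖v a‖ₑ ≤ (2 ^ n * ‖(v' n - v) a‖ₑ ^ 2 + 2⁻¹ ^ n) +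
      C * ((∫⁻ y in Ω, ‖rot (z y)‖ₑ * K (a - y)) +
        ((2 ^ n * ∫⁻ y in Ω, (4 * ‖(z' n - z) y‖ₑ) ^ 2 * K1 (a - y)) + 2⁻¹ ^ n * (∫⁻ y, K1 y) +
          (2⁻¹ ^ n + 2⁻¹ ^ n * ∫⁻ y, K2 y ^ 2))) := by
    intro n
    have e1 : v a = φ n a - (v' n - v) a := by
      rw [g4 n, Pi.sub_apply, g3 n]
      abel
    have e2 : ‖(v' n - v) a‖ₑ ≤ 2 ^ n * ‖(v' n - v) a‖ₑ ^ 2 + 2⁻¹ ^ n := by
      have := young ‖(v' n - v) a‖ₑ 1 (2 ^ n) (r0 n) (r1 n)
      rwa [mul_one, one_pow, mul_one, ENNReal.inv_pow] at this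
    have e3 : ‖φ n a‖ₑ ≤ C * ∫⁻ y, ‖rot (jac (φ n) y)‖ₑ * K (a - y) :=
      hC (φ n) (hφ n).smooth (hφ n).compact (hφ n).divfree a
    rw [outside Ω hΩ _ (hφ n)] at e3
    have e4 : ∫⁻ y in Ω, ‖rot (jac (φ n) y)‖ₑ * K (a - y) ≤
        ∫⁻ y in Ω, (‖rot (z y)‖ₑ * K (a - y) + (4 * ‖(z' n - z) y‖ₑ) * K (a - y)) := by
      refine lintegral_mono_ae ?_
      filter_upwards [hz n, Lp.coeFn_sub (z' n) z] with y hy1 hy2
      rw [← add_mul, hy2, Pi.sub_apply, hy1]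
      gcongr
      exact rot_enorm _ _
    have hk : Measurable fun y => (4 * ‖(z' n - z) y‖ₑ) * K (a - y) :=
      (measurable_const.mul (Lp.stronglyMeasurable (z' n - z)).measurable.enorm).mul
        (K_meas.comp (measurable_const.sub measurable_id))
    rw [lintegral_add_right _ hk] at e4
    have e5 := conv Ω (z' n - z) (2 ^ n) (r0 n) (r1 n) a
    rw [ENNReal.inv_pow] at e5
    have e6 := num n _ (nz n)
    calc ‖v a‖ₑ = ‖φ n a - (v' n - v) a‖ₑ := by rw [← e1]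
      _ ≤ ‖φ n a‖ₑ + ‖(v' n - v) a‖ₑ := enorm_sub_le
      _ = ‖(v' n - v) a‖ₑ + ‖φ n a‖ₑ := add_comm _ _
      _ ≤ _ := by
        refine add_le_add e2 (e3.trans ?_)
        gcongr
        refine e4.trans ?_
        gcongr
        refine e5.trans ?_
        gcongr
  have rz : Tendsto (fun n : ℕ => (2⁻¹ : ℝ≥0∞) ^ n) atTop (𝓝 0) :=
    ENNReal.tendsto_pow_atTop_nhds_zero_of_lt_one (ENNReal.inv_lt_one.2 (by norm_num))
  have t1 : Tendsto (fun n : ℕ => (2⁻¹ : ℝ≥0∞) ^ n * (∫⁻ y, K1 y)) atTop (𝓝 0) := by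
    have := ENNReal.Tendsto.mul_const rz (Or.inr K1_fin)
    rwa [zero_mul] at this
  have t2 : Tendsto (fun n : ℕ => (2⁻¹ : ℝ≥0∞) ^ n * (∫⁻ y, K2 y ^ 2)) atTop (𝓝 0) := by
    have := ENNReal.Tendsto.mul_const rz (Or.inr K2_fin)
    rwa [zero_mul] at this
  have t3 := (g1.add t1).add (rz.add t2)
  have t4 := (tendsto_const_nhds (x := ∫⁻ y in Ω, ‖rot (z y)‖ₑ * K (a - y)) (f := (atTop : Filter ℕ))).add t3
  have t5 := (g2.add rz).add (ENNReal.Tendsto.const_mul (a := (C : ℝ≥0∞)) t4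
    (Or.inr ENNReal.coe_ne_top))
  have t6 := ge_of_tendsto' t5 main
  simp only [add_zero, zero_add] at t6
  exact t6

end Pool.Agent.U59.EV
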